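import Pool.Agent.TH358.BG.Main

/-!
# The complexes `Γ(X,n) ⊗ ℚ` of curves in characteristic `p`

* Let `X` be a regular curve over an algebraic extension of `F_p` (for instance over a finite
  field), with function field `F`. For `n ≥ 2` all terms of the complexes `Γ(κ(x),n-1) ⊗ ℚ`,
  `x ∈ X` closed, vanish, and `Γ(X,n) ⊗ ℚ → Γ(F,n) ⊗ ℚ` is an isomorphism of complexes. On the side
  of `K`-theory `gr_n K_m(X)_ℚ → gr_n K_m(F)_ℚ` is an isomorphism for `n ≥ 2` by localisation and
  Quillen's computation of the `K`-groups of finite fields. So for these `X` and `n ≥ 2` the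
  question for `X` is equivalent to the question for the field `F` (Goncharov's conjecture).
* Let `X` be a nonempty open subset of `P^1_k`, `k` an algebraic closure of `F_p`. Then
  `Γ(X,n) ⊗ ℚ` is acyclic for all `n ≥ 2`; also `gr_n K_m(X)_ℚ = 0` for all `n ≥ 2` and all `m`.
* Let `X` be a regular curve (over any field), whose function field is in the class
  `RationalClass`, for instance an open subset of `P^1` over `k(x_1, ..., x_d)`, `d ≥ 0`, where `k`
  is a finite field. Then `H^1(Γ(X,n) ⊗ ℚ) = 0` for all `n ≥ 2`.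

The definitions are in `Pool/Agent/H39R2/GonP/Defs.lean`, `Pool/Agent/TH358/BG/Defs.lean`,
`Pool/Agent/TH358/GP/Ret.lean` (`RetractRational`) and `Pool/Agent/TH358/GP/Cls.lean`
(`RationalClass`).
-/

set_option autoImplicit false

namespace Pool.Agent.Results.MP_bae8ce_ag.OpenSubsetsProjectiveLine

open GonP Pool.Agent.TH358.GP Pool.Agent.TH358.BG

theorem result :
    -- curves over algebraic extensions of `F_p`: `F` is the function field, `κ x` the residue field
    -- of `x ∈ X`
    (∀ (p : ℕ) [Fact p.Prime] (F : Type) [Field F] (X : Type) (κ : X → Type) [∀ x, Field (κ x)]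
        [∀ x, Algebra (ZMod p) (κ x)] [∀ x, Algebra.IsAlgebraic (ZMod p) (κ x)],
      (∀ x, Nonempty (Differentials (κ x))) ∧ (∀ x m j, Subsingleton (GT (κ x) m j)) ∧
      ∀ (DF : Differentials F) (Dκ : ∀ x, Differentials (κ x)) (res : Res F κ),
        GenericIso DF Dκ res ∧ (XAcyclic DF Dκ res ↔ DF.Acyclic)) ∧
    -- open subsets of the projective line over an algebraic closure `k` of `F_p`
    (∀ (p : ℕ) [Fact p.Prime] (k : Type) [Field k] [IsAlgClosed k] [Algebra (ZMod p) k]
        [Algebra.IsAlgebraic (ZMod p) k],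
      Nonempty (Differentials (RatFunc k)) ∧
      ∀ (X : Set (P1 k)) (DF : Differentials (RatFunc k)) (Dκ : X → Differentials k)
        (res : Res (RatFunc k) (fun _ : X => k)), XAcyclic DF Dκ res) ∧
    -- `H^1(Γ(X,n) ⊗ ℚ) = 0` for all curves `X` with function field in the class
    ∀ (F : Type) [i : Field F], RationalClass F i →
      Nonempty (Differentials F) ∧
      ∀ (X : Type) (κ : X → Type) [∀ x, Field (κ x)] (DF : Differentials F)
        (Dκ : ∀ x, Differentials (κ x)) (res : Res F κ) (m : ℕ) (z : XT F κ (m + 2) 0),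
        tot DF Dκ res (m + 1) 0 z = 0 → z = 0 := by
  refine ⟨?_, ?_, ?_⟩
  · intro p _ F _ X κ _ _ _
    refine ⟨fun x => nonempty_diff p (κ x), fun x => sub_GT p (κ x), fun DF Dκ res => ?_⟩
    have h := generic p F κ DF Dκ res
    exact ⟨h, xacyclic F κ DF Dκ res h⟩
  · intro p _ k _ _ _ _
    obtain ⟨h1, h2⟩ := ratFunc p k
    refine ⟨h1, fun X DF Dκ res => ?_⟩
    exact (xacyclic _ _ DF Dκ res (generic p _ _ DF Dκ res)).2 (h2 DF)
  · intro F i h
    obtain ⟨⟨D, -⟩, -⟩ := main_class' F h
    exact ⟨⟨D⟩, fun X κ _ DF Dκ res m z hz => degreeOne F h κ DF Dκ res m z hz⟩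

end Pool.Agent.Results.MP_bae8ce_ag.OpenSubsetsProjectiveLine
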